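import Pool.Agent.H3.Al.Defs

set_option autoImplicit false

/-!
# The quadratic form of a test function given by a binary tree of integers
-/

namespace Pool.Agent.H3.Al

open Finset

/-- binary trees of integers -/
inductive Tr
  | L (z : Int)
  | N (l r : Tr)

open Tr

/-- the value of a tree at a word -/
def ev : Tr → List Bool → Int
  | L z, _ => z
  | N l _, false :: u => ev l u
  | N _ r, true :: u => ev r u
  | N _ _, [] => 0

/-- the tree is perfect of the given depth -/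
def perf : ℕ → Tr → Bool
  | 0, L _ => true
  | n + 1, N l r => perf n l && perf n r
  | _, _ => false

/-- child of a tree -/
def ch : Tr → Bool → Tr
  | N l _, false => l
  | N _ r, true => r
  | L z, _ => L z

/-- the bilinear form -/
def Q : ℕ → St → Tr → Tr → Int
  | 0, _, L z, L z' => z * z'
  | n + 1, s, t, t' =>
    Q n (next s false) (ch t false) (ch t' (out s false)) +
      Q n (next s true) (ch t true) (ch t' (out s true))
  | _, _, _, _ => 0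

/-- sum of the values -/
def sm : Tr → Int
  | L z => z
  | N l r => sm l + sm r

/-- sum of the squares of the values -/
def sq : Tr → Int
  | L z => z * z
  | N l r => sq l + sq r

theorem perf_ch {n : ℕ} {t : Tr} (h : perf (n + 1) t = true) (i : Bool) :
    perf n (ch t i) = true := by
  match t, h with
  | N l r, h =>
    have h' : perf n l = true ∧ perf n r = true := by simpa [perf] using h
    cases i
    · exact h'.1
    · exact h'.2

theorem ev_ch {n : ℕ} {t : Tr} (h : perf (n + 1) t = true) (i : Bool) (u : List Bool) :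
    ev t (i :: u) = ev (ch t i) u := by
  match t, h with
  | N l r, h => cases i <;> rfl

theorem sm_eq {n : ℕ} {t : Tr} (h : perf n t = true) : ∑ u ∈ words n, ev t u = sm t := by
  induction n generalizing t with
  | zero =>
    match t, h with
    | L z, h => simp [words, ev, sm]
  | succ n ih =>
    match t, h with
    | N l r, h =>
      have h' : perf n l = true ∧ perf n r = true := by simpa [perf] using h
      rw [sum_words_succ]
      show ∑ u ∈ words n, ev l u + ∑ u ∈ words n, ev r u = sm l + sm r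
      rw [ih h'.1, ih h'.2]

theorem sq_eq {n : ℕ} {t : Tr} (h : perf n t = true) :
    ∑ u ∈ words n, ev t u * ev t u = sq t := by
  induction n generalizing t with
  | zero =>
    match t, h with
    | L z, h => simp [words, ev, sq]
  | succ n ih =>
    match t, h with
    | N l r, h =>
      have h' : perf n l = true ∧ perf n r = true := by simpa [perf] using h
      rw [sum_words_succ]
      show ∑ u ∈ words n, ev l u * ev l u + ∑ u ∈ words n, ev r u * ev r u = sq l + sq r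
      rw [ih h'.1, ih h'.2]

theorem Q_eq {n : ℕ} (s : St) {t t' : Tr} (h : perf n t = true) (h' : perf n t' = true) :
    ∑ u ∈ words n, ev t u * ev t' (act s u) = Q n s t t' := by
  induction n generalizing s t t' with
  | zero =>
    match t, t', h, h' with
    | L z, L z', h, h' => simp [words, ev, Q]
  | succ n ih =>
    rw [sum_words_succ]
    show _ = Q n (next s false) (ch t false) (ch t' (out s false)) +
      Q n (next s true) (ch t true) (ch t' (out s true))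
    rw [← ih (next s false) (perf_ch h false) (perf_ch h' (out s false)),
      ← ih (next s true) (perf_ch h true) (perf_ch h' (out s true))]
    congr 1
    · refine sum_congr rfl fun u _ => ?_
      rw [ev_ch h]
      show _ * ev t' (out s false :: act (next s false) u) = _
      rw [ev_ch h']
    · refine sum_congr rfl fun u _ => ?_
      rw [ev_ch h]
      show _ * ev t' (out s true :: act (next s true) u) = _
      rw [ev_ch h']

def t0 : Tr := N (N (N (N (N (L 58) (L (-58))) (N (L (-18)) (L 18))) (N (N (L (-11)) (L 11)) (N (L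
  15) (L (-15))))) (N (N (N (L 9) (L (-9))) (N (L (-19)) (L 19))) (N (N (L (-20)) (L 20)) (N (L 7)
  (L (-7)))))) (N (N (N (N (L (-3)) (L 3)) (N (L (-37)) (L 37))) (N (N (L 23) (L (-23))) (N (L 20)
  (L (-20))))) (N (N (N (L (-16)) (L 16)) (N (L 49) (L (-49)))) (N (N (L (-10)) (L 10)) (N (L
  (-19)) (L 19)))))

def t1 : Tr := N (N (N (N (N (L (-3)) (L 3)) (N (L (-37)) (L 37))) (N (N (L 23) (L (-23))) (N (L
  20) (L (-20))))) (N (N (N (L (-7)) (L 7)) (N (L 20) (L (-20)))) (N (N (L 23) (L (-23))) (N (L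
  46) (L (-46)))))) (N (N (N (N (L (-8)) (L 8)) (N (L 60) (L (-60)))) (N (N (L (-13)) (L 13)) (N
  (L (-13)) (L 13)))) (N (N (N (L 4) (L (-4))) (N (L (-21)) (L 21))) (N (N (L 17) (L (-17))) (N (L
  (-12)) (L 12)))))

def t2 : Tr := N (N (N (N (N (L 9) (L (-9))) (N (L (-19)) (L 19))) (N (N (L 20) (L (-20))) (N (L
  (-7)) (L 7)))) (N (N (N (L 28) (L (-28))) (N (L (-53)) (L 53))) (N (N (L (-3)) (L 3)) (N (L
  (-18)) (L 18))))) (N (N (N (N (L (-7)) (L 7)) (N (L 20) (L (-20)))) (N (N (L (-23)) (L 23)) (N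
  (L (-46)) (L 46)))) (N (N (N (L (-24)) (L 24)) (N (L 28) (L (-28)))) (N (N (L 2) (L (-2))) (N (L
  30) (L (-30))))))

def t3 : Tr := N (N (N (N (N (L (-16)) (L 16)) (N (L 49) (L (-49)))) (N (N (L 10) (L (-10))) (N (L
  19) (L (-19))))) (N (N (N (L (-24)) (L 24)) (N (L 28) (L (-28)))) (N (N (L 2) (L (-2))) (N (L
  30) (L (-30)))))) (N (N (N (N (L 4) (L (-4))) (N (L (-21)) (L 21))) (N (N (L (-17)) (L 17)) (N
  (L 12) (L (-12))))) (N (N (N (L 37) (L (-37))) (N (L 48) (L (-48)))) (N (N (L 18) (L (-18))) (N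
  (L 0) (L 0)))))

def t4 : Tr := N (N (N (N (N (L (-11)) (L 11)) (N (L 15) (L (-15)))) (N (N (L 18) (L (-18))) (N (L
  58) (L (-58))))) (N (N (N (L 20) (L (-20))) (N (L (-7)) (L 7))) (N (N (L (-19)) (L 19)) (N (L
  (-9)) (L 9))))) (N (N (N (N (L 23) (L (-23))) (N (L 20) (L (-20)))) (N (N (L 37) (L (-37))) (N
  (L (-3)) (L 3)))) (N (N (N (L 10) (L (-10))) (N (L 19) (L (-19)))) (N (N (L 49) (L (-49))) (N (L
  16) (L (-16))))))

def t5 : Tr := N (N (N (N (N (L 23) (L (-23))) (N (L 20) (L (-20)))) (N (N (L 37) (L (-37))) (N (L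
  (-3)) (L 3)))) (N (N (N (L (-23)) (L 23)) (N (L (-46)) (L 46))) (N (N (L 20) (L (-20))) (N (L 7)
  (L (-7)))))) (N (N (N (N (L (-13)) (L 13)) (N (L (-13)) (L 13))) (N (N (L (-60)) (L 60)) (N (L
  (-8)) (L 8)))) (N (N (N (L (-17)) (L 17)) (N (L 12) (L (-12)))) (N (N (L (-21)) (L 21)) (N (L
  (-4)) (L 4)))))

def t6 : Tr := N (N (N (N (N (L (-20)) (L 20)) (N (L 7) (L (-7)))) (N (N (L (-19)) (L 19)) (N (L
  (-9)) (L 9)))) (N (N (N (L (-3)) (L 3)) (N (L (-18)) (L 18))) (N (N (L 53) (L (-53))) (N (L 28)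
  (L (-28)))))) (N (N (N (N (L 23) (L (-23))) (N (L 46) (L (-46)))) (N (N (L 20) (L (-20))) (N (L
  7) (L (-7))))) (N (N (N (L 2) (L (-2))) (N (L 30) (L (-30)))) (N (N (L (-28)) (L 28)) (N (L
  (-24)) (L 24)))))

def t7 : Tr := N (N (N (N (N (L (-10)) (L 10)) (N (L (-19)) (L 19))) (N (N (L 49) (L (-49))) (N (L
  16) (L (-16))))) (N (N (N (L 2) (L (-2))) (N (L 30) (L (-30)))) (N (N (L (-28)) (L 28)) (N (L
  (-24)) (L 24))))) (N (N (N (N (L 17) (L (-17))) (N (L (-12)) (L 12))) (N (N (L (-21)) (L 21)) (N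
  (L (-4)) (L 4)))) (N (N (N (L 18) (L (-18))) (N (L 0) (L 0))) (N (N (L (-48)) (L 48)) (N (L 37)
  (L (-37))))))

def t8 : Tr := N (N (N (N (N (L (-18)) (L 18)) (N (L (-58)) (L 58))) (N (N (L 15) (L (-15))) (N (L
  11) (L (-11))))) (N (N (N (L (-19)) (L 19)) (N (L (-9)) (L 9))) (N (N (L 7) (L (-7))) (N (L 20)
  (L (-20)))))) (N (N (N (N (L (-37)) (L 37)) (N (L 3) (L (-3)))) (N (N (L 20) (L (-20))) (N (L
  (-23)) (L 23)))) (N (N (N (L 49) (L (-49))) (N (L 16) (L (-16)))) (N (N (L (-19)) (L 19)) (N (L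
  10) (L (-10))))))

def t9 : Tr := N (N (N (N (N (L (-37)) (L 37)) (N (L 3) (L (-3)))) (N (N (L 20) (L (-20))) (N (L
  (-23)) (L 23)))) (N (N (N (L 20) (L (-20))) (N (L 7) (L (-7)))) (N (N (L 46) (L (-46))) (N (L
  (-23)) (L 23))))) (N (N (N (N (L 60) (L (-60))) (N (L 8) (L (-8)))) (N (N (L (-13)) (L 13)) (N
  (L 13) (L (-13))))) (N (N (N (L (-21)) (L 21)) (N (L (-4)) (L 4))) (N (N (L (-12)) (L 12)) (N (L
  (-17)) (L 17)))))

def t10 : Tr := N (N (N (N (N (L (-19)) (L 19)) (N (L (-9)) (L 9))) (N (N (L (-7)) (L 7)) (N (L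
  (-20)) (L 20)))) (N (N (N (L (-53)) (L 53)) (N (L (-28)) (L 28))) (N (N (L (-18)) (L 18)) (N (L
  3) (L (-3)))))) (N (N (N (N (L 20) (L (-20))) (N (L 7) (L (-7)))) (N (N (L (-46)) (L 46)) (N (L
  23) (L (-23))))) (N (N (N (L 28) (L (-28))) (N (L 24) (L (-24)))) (N (N (L 30) (L (-30))) (N (L
  (-2)) (L 2)))))

def t11 : Tr := N (N (N (N (N (L 49) (L (-49))) (N (L 16) (L (-16)))) (N (N (L 19) (L (-19))) (N
  (L (-10)) (L 10)))) (N (N (N (L 28) (L (-28))) (N (L 24) (L (-24)))) (N (N (L 30) (L (-30))) (N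
  (L (-2)) (L 2))))) (N (N (N (N (L (-21)) (L 21)) (N (L (-4)) (L 4))) (N (N (L 12) (L (-12))) (N
  (L 17) (L (-17))))) (N (N (N (L 48) (L (-48))) (N (L (-37)) (L 37))) (N (N (L 0) (L 0)) (N (L
  (-18)) (L 18)))))

def t12 : Tr := N (N (N (N (N (L 15) (L (-15))) (N (L 11) (L (-11)))) (N (N (L 58) (L (-58))) (N
  (L (-18)) (L 18)))) (N (N (N (L (-7)) (L 7)) (N (L (-20)) (L 20))) (N (N (L (-9)) (L 9)) (N (L
  19) (L (-19)))))) (N (N (N (N (L 20) (L (-20))) (N (L (-23)) (L 23))) (N (N (L (-3)) (L 3)) (N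
  (L (-37)) (L 37)))) (N (N (N (L 19) (L (-19))) (N (L (-10)) (L 10))) (N (N (L 16) (L (-16))) (N
  (L (-49)) (L 49)))))

def t13 : Tr := N (N (N (N (N (L 20) (L (-20))) (N (L (-23)) (L 23))) (N (N (L (-3)) (L 3)) (N (L
  (-37)) (L 37)))) (N (N (N (L (-46)) (L 46)) (N (L 23) (L (-23)))) (N (N (L 7) (L (-7))) (N (L
  (-20)) (L 20))))) (N (N (N (N (L (-13)) (L 13)) (N (L 13) (L (-13)))) (N (N (L (-8)) (L 8)) (N
  (L 60) (L (-60))))) (N (N (N (L 12) (L (-12))) (N (L 17) (L (-17)))) (N (N (L (-4)) (L 4)) (N (L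
  21) (L (-21))))))

def t14 : Tr := N (N (N (N (N (L 7) (L (-7))) (N (L 20) (L (-20)))) (N (N (L (-9)) (L 9)) (N (L
  19) (L (-19))))) (N (N (N (L (-18)) (L 18)) (N (L 3) (L (-3)))) (N (N (L 28) (L (-28))) (N (L
  (-53)) (L 53))))) (N (N (N (N (L 46) (L (-46))) (N (L (-23)) (L 23))) (N (N (L 7) (L (-7))) (N
  (L (-20)) (L 20)))) (N (N (N (L 30) (L (-30))) (N (L (-2)) (L 2))) (N (N (L (-24)) (L 24)) (N (L
  28) (L (-28))))))

def t15 : Tr := N (N (N (N (N (L (-19)) (L 19)) (N (L 10) (L (-10)))) (N (N (L 16) (L (-16))) (N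
  (L (-49)) (L 49)))) (N (N (N (L 30) (L (-30))) (N (L (-2)) (L 2))) (N (N (L (-24)) (L 24)) (N (L
  28) (L (-28)))))) (N (N (N (N (L (-12)) (L 12)) (N (L (-17)) (L 17))) (N (N (L (-4)) (L 4)) (N
  (L 21) (L (-21))))) (N (N (N (L 0) (L 0)) (N (L (-18)) (L 18))) (N (N (L 37) (L (-37))) (N (L
  48) (L (-48))))))

def t16 : Tr := N (N (N (N (N (L (-58)) (L 58)) (N (L 18) (L (-18)))) (N (N (L 11) (L (-11))) (N
  (L (-15)) (L 15)))) (N (N (N (L (-9)) (L 9)) (N (L 19) (L (-19)))) (N (N (L 20) (L (-20))) (N (L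
  (-7)) (L 7))))) (N (N (N (N (L 3) (L (-3))) (N (L 37) (L (-37)))) (N (N (L (-23)) (L 23)) (N (L
  (-20)) (L 20)))) (N (N (N (L 16) (L (-16))) (N (L (-49)) (L 49))) (N (N (L 10) (L (-10))) (N (L
  19) (L (-19))))))

def t17 : Tr := N (N (N (N (N (L 3) (L (-3))) (N (L 37) (L (-37)))) (N (N (L (-23)) (L 23)) (N (L
  (-20)) (L 20)))) (N (N (N (L 7) (L (-7))) (N (L (-20)) (L 20))) (N (N (L (-23)) (L 23)) (N (L
  (-46)) (L 46))))) (N (N (N (N (L 8) (L (-8))) (N (L (-60)) (L 60))) (N (N (L 13) (L (-13))) (N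
  (L 13) (L (-13))))) (N (N (N (L (-4)) (L 4)) (N (L 21) (L (-21)))) (N (N (L (-17)) (L 17)) (N (L
  12) (L (-12))))))

def t18 : Tr := N (N (N (N (N (L (-9)) (L 9)) (N (L 19) (L (-19)))) (N (N (L (-20)) (L 20)) (N (L
  7) (L (-7))))) (N (N (N (L (-28)) (L 28)) (N (L 53) (L (-53)))) (N (N (L 3) (L (-3))) (N (L 18)
  (L (-18)))))) (N (N (N (N (L 7) (L (-7))) (N (L (-20)) (L 20))) (N (N (L 23) (L (-23))) (N (L
  46) (L (-46))))) (N (N (N (L 24) (L (-24))) (N (L (-28)) (L 28))) (N (N (L (-2)) (L 2)) (N (L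
  (-30)) (L 30)))))

def t19 : Tr := N (N (N (N (N (L 16) (L (-16))) (N (L (-49)) (L 49))) (N (N (L (-10)) (L 10)) (N
  (L (-19)) (L 19)))) (N (N (N (L 24) (L (-24))) (N (L (-28)) (L 28))) (N (N (L (-2)) (L 2)) (N (L
  (-30)) (L 30))))) (N (N (N (N (L (-4)) (L 4)) (N (L 21) (L (-21)))) (N (N (L 17) (L (-17))) (N
  (L (-12)) (L 12)))) (N (N (N (L (-37)) (L 37)) (N (L (-48)) (L 48))) (N (N (L (-18)) (L 18)) (N
  (L 0) (L 0)))))

def t20 : Tr := N (N (N (N (N (L 11) (L (-11))) (N (L (-15)) (L 15))) (N (N (L (-18)) (L 18)) (N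
  (L (-58)) (L 58)))) (N (N (N (L (-20)) (L 20)) (N (L 7) (L (-7)))) (N (N (L 19) (L (-19))) (N (L
  9) (L (-9)))))) (N (N (N (N (L (-23)) (L 23)) (N (L (-20)) (L 20))) (N (N (L (-37)) (L 37)) (N
  (L 3) (L (-3))))) (N (N (N (L (-10)) (L 10)) (N (L (-19)) (L 19))) (N (N (L (-49)) (L 49)) (N (L
  (-16)) (L 16)))))

def t21 : Tr := N (N (N (N (N (L (-23)) (L 23)) (N (L (-20)) (L 20))) (N (N (L (-37)) (L 37)) (N
  (L 3) (L (-3))))) (N (N (N (L 23) (L (-23))) (N (L 46) (L (-46)))) (N (N (L (-20)) (L 20)) (N (L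
  (-7)) (L 7))))) (N (N (N (N (L 13) (L (-13))) (N (L 13) (L (-13)))) (N (N (L 60) (L (-60))) (N
  (L 8) (L (-8))))) (N (N (N (L 17) (L (-17))) (N (L (-12)) (L 12))) (N (N (L 21) (L (-21))) (N (L
  4) (L (-4))))))

def t22 : Tr := N (N (N (N (N (L 20) (L (-20))) (N (L (-7)) (L 7))) (N (N (L 19) (L (-19))) (N (L
  9) (L (-9))))) (N (N (N (L 3) (L (-3))) (N (L 18) (L (-18)))) (N (N (L (-53)) (L 53)) (N (L
  (-28)) (L 28))))) (N (N (N (N (L (-23)) (L 23)) (N (L (-46)) (L 46))) (N (N (L (-20)) (L 20)) (N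
  (L (-7)) (L 7)))) (N (N (N (L (-2)) (L 2)) (N (L (-30)) (L 30))) (N (N (L 28) (L (-28))) (N (L
  24) (L (-24))))))

def t23 : Tr := N (N (N (N (N (L 10) (L (-10))) (N (L 19) (L (-19)))) (N (N (L (-49)) (L 49)) (N
  (L (-16)) (L 16)))) (N (N (N (L (-2)) (L 2)) (N (L (-30)) (L 30))) (N (N (L 28) (L (-28))) (N (L
  24) (L (-24)))))) (N (N (N (N (L (-17)) (L 17)) (N (L 12) (L (-12)))) (N (N (L 21) (L (-21))) (N
  (L 4) (L (-4))))) (N (N (N (L (-18)) (L 18)) (N (L 0) (L 0))) (N (N (L 48) (L (-48))) (N (L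
  (-37)) (L 37)))))

def t24 : Tr := N (N (N (N (N (L 18) (L (-18))) (N (L 58) (L (-58)))) (N (N (L (-15)) (L 15)) (N
  (L (-11)) (L 11)))) (N (N (N (L 19) (L (-19))) (N (L 9) (L (-9)))) (N (N (L (-7)) (L 7)) (N (L
  (-20)) (L 20))))) (N (N (N (N (L 37) (L (-37))) (N (L (-3)) (L 3))) (N (N (L (-20)) (L 20)) (N
  (L 23) (L (-23))))) (N (N (N (L (-49)) (L 49)) (N (L (-16)) (L 16))) (N (N (L 19) (L (-19))) (N
  (L (-10)) (L 10)))))

def t25 : Tr := N (N (N (N (N (L 37) (L (-37))) (N (L (-3)) (L 3))) (N (N (L (-20)) (L 20)) (N (L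
  23) (L (-23))))) (N (N (N (L (-20)) (L 20)) (N (L (-7)) (L 7))) (N (N (L (-46)) (L 46)) (N (L
  23) (L (-23)))))) (N (N (N (N (L (-60)) (L 60)) (N (L (-8)) (L 8))) (N (N (L 13) (L (-13))) (N
  (L (-13)) (L 13)))) (N (N (N (L 21) (L (-21))) (N (L 4) (L (-4)))) (N (N (L 12) (L (-12))) (N (L
  17) (L (-17))))))

def t26 : Tr := N (N (N (N (N (L 19) (L (-19))) (N (L 9) (L (-9)))) (N (N (L 7) (L (-7))) (N (L
  20) (L (-20))))) (N (N (N (L 53) (L (-53))) (N (L 28) (L (-28)))) (N (N (L 18) (L (-18))) (N (L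
  (-3)) (L 3))))) (N (N (N (N (L (-20)) (L 20)) (N (L (-7)) (L 7))) (N (N (L 46) (L (-46))) (N (L
  (-23)) (L 23)))) (N (N (N (L (-28)) (L 28)) (N (L (-24)) (L 24))) (N (N (L (-30)) (L 30)) (N (L
  2) (L (-2))))))

def t27 : Tr := N (N (N (N (N (L (-49)) (L 49)) (N (L (-16)) (L 16))) (N (N (L (-19)) (L 19)) (N
  (L 10) (L (-10))))) (N (N (N (L (-28)) (L 28)) (N (L (-24)) (L 24))) (N (N (L (-30)) (L 30)) (N
  (L 2) (L (-2)))))) (N (N (N (N (L 21) (L (-21))) (N (L 4) (L (-4)))) (N (N (L (-12)) (L 12)) (N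
  (L (-17)) (L 17)))) (N (N (N (L (-48)) (L 48)) (N (L 37) (L (-37)))) (N (N (L 0) (L 0)) (N (L
  18) (L (-18))))))

def t28 : Tr := N (N (N (N (N (L (-15)) (L 15)) (N (L (-11)) (L 11))) (N (N (L (-58)) (L 58)) (N
  (L 18) (L (-18))))) (N (N (N (L 7) (L (-7))) (N (L 20) (L (-20)))) (N (N (L 9) (L (-9))) (N (L
  (-19)) (L 19))))) (N (N (N (N (L (-20)) (L 20)) (N (L 23) (L (-23)))) (N (N (L 3) (L (-3))) (N
  (L 37) (L (-37))))) (N (N (N (L (-19)) (L 19)) (N (L 10) (L (-10)))) (N (N (L (-16)) (L 16)) (N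
  (L 49) (L (-49))))))

def t29 : Tr := N (N (N (N (N (L (-20)) (L 20)) (N (L 23) (L (-23)))) (N (N (L 3) (L (-3))) (N (L
  37) (L (-37))))) (N (N (N (L 46) (L (-46))) (N (L (-23)) (L 23))) (N (N (L (-7)) (L 7)) (N (L
  20) (L (-20)))))) (N (N (N (N (L 13) (L (-13))) (N (L (-13)) (L 13))) (N (N (L 8) (L (-8))) (N
  (L (-60)) (L 60)))) (N (N (N (L (-12)) (L 12)) (N (L (-17)) (L 17))) (N (N (L 4) (L (-4))) (N (L
  (-21)) (L 21)))))

def t30 : Tr := N (N (N (N (N (L (-7)) (L 7)) (N (L (-20)) (L 20))) (N (N (L 9) (L (-9))) (N (L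
  (-19)) (L 19)))) (N (N (N (L 18) (L (-18))) (N (L (-3)) (L 3))) (N (N (L (-28)) (L 28)) (N (L
  53) (L (-53)))))) (N (N (N (N (L (-46)) (L 46)) (N (L 23) (L (-23)))) (N (N (L (-7)) (L 7)) (N
  (L 20) (L (-20))))) (N (N (N (L (-30)) (L 30)) (N (L 2) (L (-2)))) (N (N (L 24) (L (-24))) (N (L
  (-28)) (L 28)))))

def t31 : Tr := N (N (N (N (N (L 19) (L (-19))) (N (L (-10)) (L 10))) (N (N (L (-16)) (L 16)) (N
  (L 49) (L (-49))))) (N (N (N (L (-30)) (L 30)) (N (L 2) (L (-2)))) (N (N (L 24) (L (-24))) (N (L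
  (-28)) (L 28))))) (N (N (N (N (L 12) (L (-12))) (N (L 17) (L (-17)))) (N (N (L 4) (L (-4))) (N
  (L (-21)) (L 21)))) (N (N (N (L 0) (L 0)) (N (L 18) (L (-18)))) (N (N (L (-37)) (L 37)) (N (L
  (-48)) (L 48)))))

def tt : Tr := N (N (N (N (N (t0) (t1)) (N (t2) (t3))) (N (N (t4) (t5)) (N (t6) (t7)))) (N (N (N
  (t8) (t9)) (N (t10) (t11))) (N (N (t12) (t13)) (N (t14) (t15))))) (N (N (N (N (t16) (t17)) (N
  (t18) (t19))) (N (N (t20) (t21)) (N (t22) (t23)))) (N (N (N (t24) (t25)) (N (t26) (t27))) (N (N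
  (t28) (t29)) (N (t30) (t31)))))

theorem tt_perf : perf 10 tt = true := by decide +kernel

theorem tt_sm : sm tt = 0 := by decide +kernel

theorem tt_sq : sq tt = 657392 := by decide +kernel

theorem tt_Q : Q 10 St.a tt tt + Q 10 St.b tt tt + Q 10 St.c tt tt = 1476288 := by decide +kernel

end Pool.Agent.H3.Al
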