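import Mathlib

set_option autoImplicit false
set_option linter.unusedSectionVars false

/-!
# A test function gives an eigenvalue
-/

namespace Pool.Agent.H3.Al

variable {X ι : Type} [Fintype X] [Fintype ι] (σ : ι → Equiv.Perm X)

/-- the adjacency operator -/
noncomputable def adj : EuclideanSpace ℝ X →ₗ[ℝ] EuclideanSpace ℝ X where
  toFun f := WithLp.toLp 2 (fun x => ∑ s, (f (σ s x) + f ((σ s)⁻¹ x)))
  map_add' f g := by
    ext x
    simp only [PiLp.add_apply]
    rw [← Finset.sum_add_distrib]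
    exact Finset.sum_congr rfl fun s _ => by ring
  map_smul' c f := by
    ext x
    simp only [PiLp.smul_apply, smul_eq_mul, RingHom.id_apply]
    rw [Finset.mul_sum]
    exact Finset.sum_congr rfl fun s _ => by ring

theorem adj_apply (f : EuclideanSpace ℝ X) (x : X) :
    adj σ f x = ∑ s, (f (σ s x) + f ((σ s)⁻¹ x)) := rfl

theorem inner_eq (f g : EuclideanSpace ℝ X) : inner ℝ f g = ∑ x, f x * g x := by
  rw [PiLp.inner_apply]
  refine Finset.sum_congr rfl fun x _ => ?_
  simp [mul_comm]

theorem adj_symm : (adj σ).IsSymmetric := by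
  intro f g
  rw [inner_eq, inner_eq]
  simp only [adj_apply, Finset.sum_mul, Finset.mul_sum, add_mul, mul_add]
  rw [Finset.sum_comm, Finset.sum_comm (s := Finset.univ (α := X))]
  refine Finset.sum_congr rfl fun s _ => ?_
  rw [Finset.sum_add_distrib, Finset.sum_add_distrib, add_comm]
  congr 1
  · rw [← Equiv.sum_comp (σ s) (fun x => f ((σ s)⁻¹ x) * g x)]
    exact Finset.sum_congr rfl fun x _ => by simp
  · rw [← Equiv.sum_comp (σ s) (fun x => f x * g ((σ s)⁻¹ x))]
    exact Finset.sum_congr rfl fun x _ => by simp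

/-- functions with sum zero -/
def zeroSum (X : Type) [Fintype X] : Submodule ℝ (EuclideanSpace ℝ X) where
  carrier := {f | ∑ x, f x = 0}
  zero_mem' := by simp
  add_mem' := by
    intro f g hf hg
    show ∑ x, (f + g) x = 0
    have h1 : ∑ x, (f + g) x = ∑ x, f x + ∑ x, g x := by
      rw [← Finset.sum_add_distrib]; rfl
    rw [h1, hf, hg, add_zero]
  smul_mem' := by
    intro c f hf
    show ∑ x, (c • f) x = 0
    have h1 : ∑ x, (c • f) x = c * ∑ x, f x := by
      rw [Finset.mul_sum]; rfl
    rw [h1, hf, mul_zero]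

theorem mem_zeroSum {f : EuclideanSpace ℝ X} : f ∈ zeroSum X ↔ ∑ x, f x = 0 := Iff.rfl

theorem adj_zeroSum : ∀ f ∈ zeroSum X, adj σ f ∈ zeroSum X := by
  intro f hf
  rw [mem_zeroSum] at hf ⊢
  simp only [adj_apply]
  rw [Finset.sum_comm]
  refine Finset.sum_eq_zero fun s _ => ?_
  rw [Finset.sum_add_distrib, Equiv.sum_comp (σ s) (fun x => f x),
    Equiv.sum_comp (σ s)⁻¹ (fun x => f x), hf, add_zero]

/-- a test function gives an eigenvalue with a nonconstant eigenfunction -/
theorem exists_eigen (c : ℝ) (f : X → ℝ) (hf : ∑ x, f x = 0)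
    (hq : c * ∑ x, f x ^ 2 < ∑ x, (∑ s, (f (σ s x) + f ((σ s)⁻¹ x))) * f x) :
    ∃ (t : ℝ) (g : X → ℝ), c < t ∧ (∀ x, ∑ s, (g (σ s x) + g ((σ s)⁻¹ x)) = t * g x) ∧
      ∃ x y, g x ≠ g y := by
  by_contra hcon
  push Not at hcon
  set T := (adj σ).restrict (adj_zeroSum σ) with hT
  have hTs : T.IsSymmetric := (adj_symm σ).restrict_invariant (adj_zeroSum σ)
  set n := Module.finrank ℝ (zeroSum X) with hn
  set b := hTs.eigenvectorBasis hn.symm with hb
  have happ : ∀ i, T (b i) = (hTs.eigenvalues hn.symm i : ℝ) • b i :=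
    fun i => hTs.apply_eigenvectorBasis hn.symm i
  have hle : ∀ i, hTs.eigenvalues hn.symm i ≤ c := by
    intro i
    by_contra hlt
    push Not at hlt
    have hconst := hcon _ (fun x => ((b i : zeroSum X) : EuclideanSpace ℝ X) x) hlt (by
      intro x
      exact congrArg (fun w : zeroSum X => (w : EuclideanSpace ℝ X) x) (happ i))
    have hne : b i ≠ 0 := by
      intro h0
      have := b.orthonormal.1 i
      rw [h0, norm_zero] at this
      exact zero_ne_one this
    apply hne
    apply Subtype.ext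
    have hz := mem_zeroSum.1 (b i).2
    have hX : Nonempty X := by
      by_contra hX
      rw [not_nonempty_iff] at hX
      apply hne
      apply Subtype.ext
      ext x
      exact hX.elim x
    obtain ⟨x0⟩ := hX
    have h2 : ∑ x, ((b i : zeroSum X) : EuclideanSpace ℝ X) x =
        Fintype.card X * ((b i : zeroSum X) : EuclideanSpace ℝ X) x0 := by
      rw [Finset.sum_congr rfl fun x _ => hconst x x0, Finset.sum_const, nsmul_eq_mul,
        Finset.card_univ]
    rw [h2] at hz
    have hcard : (Fintype.card X : ℝ) ≠ 0 := by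
      have : 0 < Fintype.card X := Fintype.card_pos_iff.2 ⟨x0⟩
      exact_mod_cast this.ne'
    have h3 := (mul_eq_zero.1 hz).resolve_left hcard
    ext x
    rw [hconst x x0, h3]
    rfl
  set f' : EuclideanSpace ℝ X := WithLp.toLp 2 f with hf'
  set v : zeroSum X := ⟨f', hf⟩ with hv
  have e1 : inner ℝ (T v) v = ∑ x, (∑ s, (f (σ s x) + f ((σ s)⁻¹ x))) * f x := by
    rw [Submodule.coe_inner, inner_eq]
    rfl
  have e2 : inner ℝ v v = ∑ x, f x ^ 2 := by
    rw [Submodule.coe_inner, inner_eq]
    exact Finset.sum_congr rfl fun x _ => (pow_two _).symm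
  rw [← e1, ← e2, ← b.sum_inner_mul_inner (T v) v, ← b.sum_inner_mul_inner v v,
    Finset.mul_sum] at hq
  refine absurd hq (not_lt.2 (Finset.sum_le_sum fun i _ => ?_))
  have h0 : inner ℝ (T v) (b i) = hTs.eigenvalues hn.symm i * inner ℝ v (b i) := by
    rw [hTs v (b i), happ i]
    exact real_inner_smul_right v (b i) (hTs.eigenvalues hn.symm i)
  have h1 : inner ℝ v (b i) * inner ℝ (b i) v = inner ℝ v (b i) ^ 2 := by
    rw [real_inner_comm v (b i)]; ring
  rw [h0, mul_assoc, h1]
  exact mul_le_mul_of_nonneg_right (hle i) (sq_nonneg _)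

end Pool.Agent.H3.Al
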